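import Pool.Agent.Helper47.KP.Main

/-!
Feasible solutions of the `k`-point bound from kernels which need not be continuous.
-/

set_option autoImplicit false

open Finset
open scoped RealInnerProductSpace

namespace Pool.Agent.Helper86.WI

open Pool.Agent.Helper47.KP (Sph EE IsFeasible Separated SepT BB)

/-- A partition of unity with small supports. -/
theorem exists_partition {X : Type} [PseudoMetricSpace X] [CompactSpace X] {r : ℝ} (hr : 0 < r) :
    ∃ (n : ℕ) (z : Fin n → X) (φ : Fin n → X → ℝ), (∀ i, Continuous (φ i)) ∧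
      (∀ i x, 0 ≤ φ i x) ∧ (∀ x, ∑ i, φ i x = 1) ∧ ∀ i x, φ i x ≠ 0 → dist x (z i) < r := by
  obtain ⟨s, -, hs, hcov⟩ := finite_cover_balls_of_compact (isCompact_univ (X := X)) hr
  set S := hs.toFinset with hS
  set e := S.equivFin
  set z : Fin S.card → X := fun i => (e.symm i : X) with hz
  set w : Fin S.card → X → ℝ := fun i x => max 0 (r - dist x (z i)) with hw
  have hwc : ∀ i, Continuous (w i) := fun i =>
    continuous_const.max (continuous_const.sub (continuous_id.dist continuous_const))
  have hw0 : ∀ i x, 0 ≤ w i x := fun i x => le_max_left _ _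
  have hW : ∀ x, 0 < ∑ i, w i x := by
    intro x
    have hx : x ∈ ⋃ y ∈ s, Metric.ball y r := hcov (Set.mem_univ x)
    simp only [Set.mem_iUnion, Metric.mem_ball] at hx
    obtain ⟨y, hy, hxy⟩ := hx
    have hyS : y ∈ S := hs.mem_toFinset.2 hy
    refine sum_pos' (fun i _ => hw0 i x) ⟨e ⟨y, hyS⟩, mem_univ _, ?_⟩
    simp only [hw, hz, Equiv.symm_apply_apply]
    exact lt_max_of_lt_right (by linarith)
  refine ⟨S.card, z, fun i x => w i x / ∑ j, w j x, fun i => ?_, fun i x => ?_, fun x => ?_,
    fun i x h => ?_⟩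
  · exact (hwc i).div (continuous_finset_sum _ fun j _ => hwc j) fun x => (hW x).ne'
  · exact div_nonneg (hw0 i x) (hW x).le
  · rw [← sum_div, div_self (hW x).ne']
  · by_contra hn
    apply h
    have : w i x = 0 := max_eq_left (by linarith [not_lt.1 hn])
    simp only [this, zero_div]

lemma dist_S {d : ℕ} (x y : Sph d) : dist x y = ‖(x : EE d) - y‖ := by
  rw [Subtype.dist_eq, dist_eq_norm]

lemma inner_near {d : ℕ} {r : ℝ} {x y z z' : Sph d} (h : dist x z < r) (h' : dist y z' < r) :
    ⟪(z : EE d), z'⟫ ≤ ⟪(x : EE d), y⟫ + 2 * r := by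
  rw [dist_S] at h h'
  have h1 : ⟪(z : EE d), z'⟫ - ⟪(x : EE d), y⟫ =
      ⟪(z : EE d) - x, z'⟫ + ⟪(x : EE d), (z' : EE d) - y⟫ := by
    rw [inner_sub_left, inner_sub_right]; ring
  have hz' : ‖(z' : EE d)‖ = 1 := by simpa using z'.2
  have hx : ‖(x : EE d)‖ = 1 := by simpa using x.2
  have h2 : ⟪(z : EE d) - x, z'⟫ ≤ ‖(z : EE d) - x‖ := by
    have := real_inner_le_norm ((z : EE d) - x) z'
    rwa [hz', mul_one] at this
  have h3 : ⟪(x : EE d), (z' : EE d) - y⟫ ≤ ‖(z' : EE d) - y‖ := by
    have := real_inner_le_norm (x : EE d) ((z' : EE d) - y)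
    rwa [hx, one_mul] at this
  rw [norm_sub_rev] at h2 h3
  linarith

open Classical in
/-- A positive semidefinite kernel on the sphere which is at most `-1` for inner products up to
`1/2 + ε` and at most `lam` on the diagonal gives a feasible solution of every `k`-point bound. -/
theorem exists_feasible {d : ℕ} {ε lam : ℝ} (hε : 0 < ε) (T₀ : Sph d → Sph d → ℝ)
    (hsymm : ∀ x y, T₀ x y = T₀ y x)
    (hpsd : ∀ (n : ℕ) (x : Fin n → Sph d) (c : Fin n → ℝ),
      0 ≤ ∑ i, ∑ j, c i * c j * T₀ (x i) (x j))
    (hle : ∀ x y : Sph d, ⟪(x : EE d), (y : EE d)⟫ ≤ 1 / 2 + ε → T₀ x y ≤ -1)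
    (hdiag : ∀ x, T₀ x x ≤ lam) :
    ∃ T₁ : Sph d → Sph d → ℝ, ∀ k, 2 ≤ k →
      IsFeasible d k (fun Q x y => if Q = ∅ then T₁ x y else 0) lam := by
  obtain ⟨n, z, φ, hφc, hφ0, hφ1, hφs⟩ := exists_partition (X := Sph d) (half_pos hε)
  have hoff : ∀ x y, T₀ x y ≤ lam := by
    intro x y
    have h := hpsd 2 ![x, y] ![1, -1]
    simp only [Fin.sum_univ_two, Matrix.cons_val_zero, Matrix.cons_val_one, mul_one, one_mul,
      mul_neg, neg_mul, neg_neg] at h
    have h1 := hdiag x
    have h2 := hdiag y
    have h3 := hsymm x y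
    linarith
  set T₁ : Sph d → Sph d → ℝ := fun x y => ∑ i, ∑ j, φ i x * φ j y * T₀ (z i) (z j) with hT₁
  have hsum : ∀ x y, ∑ i, ∑ j, φ i x * φ j y = 1 := by
    intro x y
    simp only [← mul_sum, hφ1, mul_one]
  have hc : Continuous fun p : Sph d × Sph d => T₁ p.1 p.2 := by
    refine continuous_finset_sum _ fun i _ => continuous_finset_sum _ fun j _ => ?_
    exact (((hφc i).comp continuous_fst).mul ((hφc j).comp continuous_snd)).mul continuous_const
  have hs : ∀ x y, T₁ x y = T₁ y x := by
    intro x y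
    simp only [hT₁]
    rw [sum_comm]
    refine sum_congr rfl fun i _ => sum_congr rfl fun j _ => ?_
    rw [hsymm (z j) (z i)]; ring
  have hp : ∀ (m : ℕ) (x : Fin m → Sph d) (c : Fin m → ℝ),
      0 ≤ ∑ a, ∑ b, c a * c b * T₁ (x a) (x b) := by
    intro m x c
    have h := hpsd n z fun i => ∑ a, c a * φ i (x a)
    have e : ∑ a, ∑ b, c a * c b * T₁ (x a) (x b) =
        ∑ i, ∑ j, (∑ a, c a * φ i (x a)) * (∑ b, c b * φ j (x b)) * T₀ (z i) (z j) := by
      simp only [hT₁, mul_sum, sum_mul]
      rw [sum_congr rfl fun a _ => sum_comm]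
      rw [sum_comm]
      refine sum_congr rfl fun i _ => ?_
      rw [sum_congr rfl fun a _ => sum_comm]
      rw [sum_comm]
      refine sum_congr rfl fun j _ => ?_
      rw [sum_comm]
      refine sum_congr rfl fun a _ => sum_congr rfl fun b _ => ?_
      ring
    rw [e]; exact h
  have hd : ∀ x, T₁ x x ≤ lam := by
    intro x
    calc T₁ x x ≤ ∑ i, ∑ j, φ i x * φ j x * lam :=
          sum_le_sum fun i _ => sum_le_sum fun j _ =>
            mul_le_mul_of_nonneg_left (hoff _ _) (mul_nonneg (hφ0 i x) (hφ0 j x))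
      _ = lam := by simp only [← sum_mul, hsum, one_mul]
  have ho : ∀ x y : Sph d, ⟪(x : EE d), (y : EE d)⟫ ≤ 1 / 2 → T₁ x y ≤ -1 := by
    intro x y hxy
    calc T₁ x y ≤ ∑ i, ∑ j, φ i x * φ j y * (-1) := by
          refine sum_le_sum fun i _ => sum_le_sum fun j _ => ?_
          by_cases h : φ i x = 0 ∨ φ j y = 0
          · rcases h with h | h <;> simp [h]
          · push Not at h
            refine mul_le_mul_of_nonneg_left (hle _ _ ?_) (mul_nonneg (hφ0 i x) (hφ0 j y))
            have := inner_near (hφs i x h.1) (hφs j y h.2)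
            linarith
      _ = -1 := by simp only [← sum_mul, hsum, one_mul]
  refine ⟨T₁, fun k hk => ⟨?_, ?_, ?_, ?_⟩⟩
  · intro q _
    rcases Nat.eq_zero_or_pos q with rfl | hq
    · have e : (fun p : (Fin 0 → Sph d) × Sph d × Sph d =>
          (if (univ.image p.1 : Finset (Sph d)) = ∅ then T₁ p.2.1 p.2.2 else 0)) =
          fun p => T₁ p.2.1 p.2.2 := by
        funext p; simp
      rw [e]
      exact (hc.comp continuous_snd).continuousOn
    · have e : (fun p : (Fin q → Sph d) × Sph d × Sph d =>
          (if (univ.image p.1 : Finset (Sph d)) = ∅ then T₁ p.2.1 p.2.2 else 0)) =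
          fun _ => (0 : ℝ) := by
        funext p
        rw [if_neg]
        rw [image_eq_empty]
        haveI : Nonempty (Fin q) := ⟨⟨0, hq⟩⟩
        exact univ_nonempty.ne_empty
      rw [e]
      exact continuousOn_const
  · intro Q _ _ x y
    by_cases h : Q = ∅
    · simp only [h, if_true, hs x y]
    · simp only [h, if_false]
  · intro Q _ _ m x c
    by_cases h : Q = ∅
    · simp only [h, if_true]; exact hp m x c
    · simp only [h, if_false, mul_zero, sum_const_zero, le_refl]
  · intro S hS hSk hsep
    have hB : BB k (fun Q x y => if Q = ∅ then T₁ x y else 0) S =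
        ∑ x ∈ S, ∑ y ∈ S, if ({x, y} : Finset (Sph d)) = S then T₁ x y else 0 := by
      unfold BB
      rw [sum_eq_single ∅]
      · simp only [empty_union, if_true]
      · intro Q _ hQ
        refine sum_eq_zero fun x _ => sum_eq_zero fun y _ => ?_
        simp only [hQ, if_false, ite_self]
      · intro h
        exfalso; apply h
        simp only [mem_filter, mem_powerset, empty_subset, card_empty, true_and]
        omega
    rw [hB]
    have h1 : 1 ≤ S.card := hS.card_pos
    rcases Nat.lt_or_ge 2 S.card with h3 | h2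
    · rw [if_neg (by omega), if_neg (by omega)]
      refine le_of_eq ?_
      rw [sub_zero]
      refine sum_eq_zero fun x _ => sum_eq_zero fun y _ => ?_
      rw [if_neg]
      intro h
      have := card_le_two (a := x) (b := y)
      rw [h] at this
      omega
    · rcases Nat.lt_or_ge 1 S.card with h2' | h1'
      · have hc2 : S.card = 2 := by omega
        obtain ⟨a, b, hab, rfl⟩ := card_eq_two.1 hc2
        rw [if_neg (by omega), if_pos hc2]
        rw [sum_pair hab, sum_pair hab, sum_pair hab]
        have e1 : ¬ (({a, a} : Finset (Sph d)) = {a, b}) := by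
          intro h
          have : b ∈ ({a, a} : Finset (Sph d)) := by rw [h]; simp
          simp at this
          exact hab this.symm
        have e2 : ¬ (({b, b} : Finset (Sph d)) = {a, b}) := by
          intro h
          have : a ∈ ({b, b} : Finset (Sph d)) := by rw [h]; simp
          simp at this
          exact hab this
        have e3 : ({b, a} : Finset (Sph d)) = {a, b} := pair_comm b a
        rw [if_neg e1, if_neg e2, if_pos rfl, if_pos e3]
        have i1 := ho a b (hsep a (by simp) b (by simp) hab)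
        have i2 := ho b a (hsep b (by simp) a (by simp) hab.symm)
        linarith
      · have hc1 : S.card = 1 := by omega
        obtain ⟨a, rfl⟩ := card_eq_one.1 hc1
        rw [if_pos hc1, if_neg (by omega)]
        simp only [sum_singleton, pair_eq_singleton, if_true, sub_zero]
        exact hd a

end Pool.Agent.Helper86.WI
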